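import Pool.Agent.N798.T.Stm

/-!
Project T (helper798), SZ (helper169): sizes of the values at the nodes of the tree.
-/

set_option autoImplicit false

namespace Pool.Agent.N169.T

open Finset Filter Topology Pool.Agent.N798.T

theorem ex_pos (par : ℕ → ℕ) (c : ℕ → ℝ) (hc : ∀ j, 0 < c j) (v : ℕ) : 0 < ex par c v := by
  induction v using Nat.strong_induction_on with
  | _ v ih =>
    cases v with
    | zero =>
      rw [ex]
      exact one_pos
    | succ j =>
      rw [ex]
      split_ifs with h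
      · exact mul_pos (ih (par j) (by omega)) (hc j)
      · exact one_pos

/-- the value `vl b x` is between `x / 2` and `2 x` if `x ≥ 2 (|b| + 1)` -/
theorem vl_bd (b : ℤ) (x : ℝ) (hx : 2 * (|(b : ℝ)| + 1) ≤ x) :
    x / 2 ≤ vl b x ∧ (vl b x : ℝ) ≤ 2 * x := by
  have hb0 := abs_nonneg (b : ℝ)
  have hb1 := neg_abs_le (b : ℝ)
  have hb2 := le_abs_self (b : ℝ)
  have h1 := Int.floor_le x
  have h2 := Int.lt_floor_add_one x
  have h3 : (0 : ℝ) ≤ (⌊x⌋ : ℝ) + b := by linarith
  have h3' : 0 ≤ ⌊x⌋ + b := by exact_mod_cast h3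
  have h4 : ((vl b x : ℕ) : ℝ) = (⌊x⌋ : ℝ) + b := by
    unfold vl
    have h5 : (((⌊x⌋ + b).toNat : ℕ) : ℤ) = ⌊x⌋ + b := Int.toNat_of_nonneg h3'
    have h6 : ((((⌊x⌋ + b).toNat : ℕ) : ℤ) : ℝ) = ((⌊x⌋ + b : ℤ) : ℝ) := by rw [h5]
    rw [Int.cast_natCast, Int.cast_add] at h6
    exact h6
  rw [h4]
  constructor <;> linarith

theorem sz : S_SZ := by
  intro par b c hpar hc v
  induction v using Nat.strong_induction_on with
  | _ v ih =>
    intro lo hi hlo hhi
    cases v with
    | zero =>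
      refine ⟨1, 0, le_rfl, fun α _ n _ => ?_⟩
      rw [ex, nd, Real.rpow_one]
      simp
    | succ j =>
      obtain ⟨κ, n0, hκ, hn0⟩ := ih (par j) (by have := hpar j; omega) lo hi hlo hhi
      have hκ0 : 0 < κ := by linarith
      have he : 0 < ex par c (par j) := ex_pos par c hc (par j)
      set e : ℝ := ex par c (par j) with hee
      have hcj := hc j
      have hec : 0 < e * c j := mul_pos he hcj
      have hex : ex par c (j + 1) = e * c j := by
        rw [ex, dif_pos (hpar j)]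
      have hK1 : 1 ≤ κ ^ (c j) := Real.one_le_rpow hκ hcj.le
      have hK0 : 0 < κ ^ (c j) := by linarith
      -- large `n`
      have ht : Tendsto (fun n : ℕ => ((n : ℝ)) ^ (e * c j)) atTop atTop :=
        (tendsto_rpow_atTop hec).comp tendsto_natCast_atTop_atTop
      obtain ⟨n1, hn1⟩ := eventually_atTop.1 (ht.eventually_ge_atTop
        (2 * (|(b j : ℝ)| + 1) * κ ^ (c j) / lo))
      have hκ2 : 1 ≤ max (2 * hi * κ ^ (c j)) (2 * κ ^ (c j) / lo) := by
        refine le_trans ?_ (le_max_left _ _)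
        nlinarith
      refine ⟨max (2 * hi * κ ^ (c j)) (2 * κ ^ (c j) / lo), max n0 (max n1 1), hκ2, fun α hα n hn => ?_⟩
      have hnn0 : n0 ≤ n := (le_max_left _ _).trans hn
      have hnn1 : n1 ≤ n := (le_max_left _ _).trans ((le_max_right _ _).trans hn)
      have hn1' : 1 ≤ n := (le_max_right _ _).trans ((le_max_right _ _).trans hn)
      have hnR : (0 : ℝ) < n := by exact_mod_cast hn1'
      obtain ⟨h1, h2⟩ := hn0 α (fun i hi' => hα i (by have := hpar j; omega)) n hnn0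
      obtain ⟨h3, h4⟩ := hα j (Nat.lt_succ_self j)
      have hnd : nd par b c α n (j + 1) = vl (b j) (α j * (nd par b c α n (par j) : ℝ) ^ (c j)) := by
        rw [nd, dif_pos (hpar j)]
      rw [hnd, hex]
      set q : ℝ := (nd par b c α n (par j) : ℝ) with hq
      set Z : ℝ := (n : ℝ) ^ (e * c j) with hZ
      have hZ0 : 0 < Z := Real.rpow_pos_of_pos hnR _
      have hZe : Z = ((n : ℝ) ^ e) ^ (c j) := by rw [hZ, Real.rpow_mul hnR.le]
      have hne : 0 < (n : ℝ) ^ e := Real.rpow_pos_of_pos hnR _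
      have hq0 : 0 ≤ q := Nat.cast_nonneg _
      have hqlo : (κ ^ (c j))⁻¹ * Z ≤ q ^ (c j) := by
        have h5 : (κ⁻¹ * (n : ℝ) ^ e) ^ (c j) ≤ q ^ (c j) :=
          Real.rpow_le_rpow (by positivity) h1 hcj.le
        rwa [Real.mul_rpow (by positivity) hne.le, Real.inv_rpow hκ0.le, ← hZe] at h5
      have hqhi : q ^ (c j) ≤ κ ^ (c j) * Z := by
        have h5 : q ^ (c j) ≤ (κ * (n : ℝ) ^ e) ^ (c j) := Real.rpow_le_rpow hq0 h2 hcj.le
        rwa [Real.mul_rpow hκ0.le hne.le, ← hZe] at h5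
      have hqc0 : 0 ≤ q ^ (c j) := Real.rpow_nonneg hq0 _
      set x : ℝ := α j * q ^ (c j) with hx
      have hxlo : lo * ((κ ^ (c j))⁻¹ * Z) ≤ x := mul_le_mul h3 hqlo (by positivity) (by linarith)
      have hxhi : x ≤ hi * (κ ^ (c j) * Z) := mul_le_mul h4 hqhi hqc0 (by linarith)
      have hZbig := hn1 n hnn1
      have hxbig : 2 * (|(b j : ℝ)| + 1) ≤ x := by
        refine le_trans ?_ hxlo
        rw [div_le_iff₀ hlo] at hZbig
        rw [← mul_assoc, mul_comm lo, mul_assoc, inv_mul_eq_div, le_div_iff₀ hK0, mul_comm lo]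
        exact hZbig
      obtain ⟨h5, h6⟩ := vl_bd (b j) x hxbig
      constructor
      · refine le_trans ?_ h5
        have h7 : (max (2 * hi * κ ^ (c j)) (2 * κ ^ (c j) / lo))⁻¹ ≤ (2 * κ ^ (c j) / lo)⁻¹ :=
          inv_anti₀ (by positivity) (le_max_right _ _)
        calc (max (2 * hi * κ ^ (c j)) (2 * κ ^ (c j) / lo))⁻¹ * Z ≤ (2 * κ ^ (c j) / lo)⁻¹ * Z :=
              mul_le_mul_of_nonneg_right h7 hZ0.le
          _ = lo * ((κ ^ (c j))⁻¹ * Z) / 2 := by
              field_simp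
          _ ≤ x / 2 := by linarith
      · refine h6.trans ?_
        calc 2 * x ≤ 2 * (hi * (κ ^ (c j) * Z)) := by linarith
          _ = 2 * hi * κ ^ (c j) * Z := by ring
          _ ≤ _ := mul_le_mul_of_nonneg_right (le_max_left _ _) hZ0.le

end Pool.Agent.N169.T
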